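import Mathlib
import Pool.Agent.U309.ZF.Stm
import Pool.Agent.H437R2.A2

/-!
# Project ZF, package LREG2 (helper899): `L(f, s)` near the edge, a simple zero at `3/2` being allowed

`t_LREG2 : S_ZETA → S_RS → S_LCONT → S_LF2`.
-/

set_option autoImplicit false

open UpperHalfPlane MatrixGroups CongruenceSubgroup

namespace Pool.Agent.U899.ZF2

open Pool.Agent.U309.ZF Metric Set

/-- `L(f, s)` near the edge; nothing is said about `L(f, 3/2)`. -/
def S_LF2 : Prop := ∀ (a b : ℤ) (N : ℕ) [NeZero N]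
  (f : CuspForm (Gamma0 N : Subgroup (GL (Fin 2) ℝ)) 2) (w : ℝ), 4 * a ^ 3 + 27 * b ^ 2 ≠ 0 →
  IsFormOf a b N f w → ∃ C : ℝ, 0 < C ∧ ∀ δ μ : ℝ, 0 < δ → δ ≤ 1 →
    -(δ / (δ ^ 2 + μ ^ 2)) - C * Real.log (|μ| + 3) ≤ W (lam f) δ μ

/-! ### Sums over primes -/

/-- the weight of `p` -/
noncomputable def w1 (δ : ℝ) (p : Nat.Primes) : ℝ :=
  Real.log ((p : ℕ) : ℝ) * ((p : ℕ) : ℝ) ^ (-(1 + δ))

lemma two_le_p (p : Nat.Primes) : (2 : ℝ) ≤ ((p : ℕ) : ℝ) := by exact_mod_cast p.2.two_le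

lemma w1_nonneg (δ : ℝ) (p : Nat.Primes) : 0 ≤ w1 δ p := by
  unfold w1
  have h := two_le_p p
  exact mul_nonneg (Real.log_nonneg (by linarith)) (Real.rpow_nonneg (by linarith) _)

lemma w1_summable {δ : ℝ} (hδ : 0 < δ) : Summable (w1 δ) := by
  have h1 : Summable fun p : Nat.Primes => (2 / δ) * ((p : ℕ) : ℝ) ^ (-(1 + δ / 2)) := by
    refine Summable.mul_left _ ?_
    exact Nat.Primes.summable_rpow.2 (by linarith)
  refine Summable.of_nonneg_of_le (fun p => w1_nonneg δ p) (fun p => ?_) h1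
  have h := two_le_p p
  have h0 : (0 : ℝ) < ((p : ℕ) : ℝ) := by linarith
  have h2 := Real.log_le_rpow_div h0.le (half_pos hδ)
  unfold w1
  calc Real.log ((p : ℕ) : ℝ) * ((p : ℕ) : ℝ) ^ (-(1 + δ))
      ≤ (((p : ℕ) : ℝ) ^ (δ / 2) / (δ / 2)) * ((p : ℕ) : ℝ) ^ (-(1 + δ)) :=
        mul_le_mul_of_nonneg_right h2 (Real.rpow_nonneg h0.le _)
    _ = (2 / δ) * (((p : ℕ) : ℝ) ^ (δ / 2) * ((p : ℕ) : ℝ) ^ (-(1 + δ))) := by
        field_simp
    _ = (2 / δ) * ((p : ℕ) : ℝ) ^ (-(1 + δ / 2)) := by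
        rw [← Real.rpow_add h0]
        congr 2
        ring

lemma summable_term {X : ℕ → ℝ} {M : ℝ} (hX : ∀ p : ℕ, p.Prime → |X p| ≤ M) {δ : ℝ} (hδ : 0 < δ)
    (μ : ℝ) : Summable fun p : Nat.Primes =>
      X p * Real.cos (μ * Real.log ((p : ℕ) : ℝ)) * w1 δ p := by
  refine Summable.of_norm_bounded ((w1_summable hδ).mul_left M) fun p => ?_
  rw [Real.norm_eq_abs, abs_mul, abs_mul, abs_of_nonneg (w1_nonneg δ p)]
  refine mul_le_mul_of_nonneg_right ?_ (w1_nonneg δ p)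
  have h1 := hX p p.2
  have h2 := Real.abs_cos_le_one (μ * Real.log ((p : ℕ) : ℝ))
  have h3 : 0 ≤ M := (abs_nonneg _).trans h1
  calc |X p| * |Real.cos (μ * Real.log ((p : ℕ) : ℝ))| ≤ M * 1 :=
        mul_le_mul h1 h2 (abs_nonneg _) h3
    _ = M := mul_one M

lemma W_one (δ : ℝ) : W (fun _ => 1) δ 0 = ∑' p, w1 δ p := by
  unfold W w1
  refine tsum_congr fun p => ?_
  rw [zero_mul, Real.cos_zero]
  ring

lemma abs_W_le {X : ℕ → ℝ} {M : ℝ} (hX : ∀ p : ℕ, p.Prime → |X p| ≤ M) {δ : ℝ} (hδ : 0 < δ)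
    (μ : ℝ) : |W X δ μ| ≤ M * W (fun _ => 1) δ 0 := by
  have hs := summable_term hX hδ μ
  rw [W_one, ← tsum_mul_left]
  have h1 : |W X δ μ| ≤ ∑' p : Nat.Primes, ‖X p * Real.cos (μ * Real.log ((p : ℕ) : ℝ)) * w1 δ p‖ :=
    norm_tsum_le_tsum_norm hs.norm
  refine h1.trans (hs.norm.tsum_le_tsum (fun p => ?_) ((w1_summable hδ).mul_left M))
  rw [Real.norm_eq_abs, abs_mul, abs_mul, abs_of_nonneg (w1_nonneg δ p)]
  refine mul_le_mul_of_nonneg_right ?_ (w1_nonneg δ p)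
  have h1 := hX p p.2
  have h2 := Real.abs_cos_le_one (μ * Real.log ((p : ℕ) : ℝ))
  have h3 : 0 ≤ M := (abs_nonneg _).trans h1
  calc |X p| * |Real.cos (μ * Real.log ((p : ℕ) : ℝ))| ≤ M * 1 :=
        mul_le_mul h1 h2 (abs_nonneg _) h3
    _ = M := mul_one M

/-- the positivity of `∑ (X p + 2 cos (γ log p))²` -/
lemma positivity_W {X : ℕ → ℝ} (hX : ∀ p : ℕ, p.Prime → |X p| ≤ 2) {δ : ℝ} (hδ : 0 < δ) (γ : ℝ) :
    0 ≤ W (fun p => X p ^ 2) δ 0 + 4 * W X δ γ + 2 * W (fun _ => 1) δ 0 +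
      2 * W (fun _ => 1) δ (2 * γ) := by
  have hX2 : ∀ p : ℕ, p.Prime → |X p ^ 2| ≤ 4 := fun p hp => by
    rw [abs_pow]
    have := hX p hp
    have h0 := abs_nonneg (X p)
    nlinarith
  have h1 : ∀ p : ℕ, p.Prime → |(fun _ => (1 : ℝ)) p| ≤ 1 := fun p _ => by simp
  have s1 := summable_term hX2 hδ 0
  have s2 := summable_term hX hδ γ
  have s3 := summable_term (X := fun _ => (1 : ℝ)) h1 hδ 0
  have s4 := summable_term (X := fun _ => (1 : ℝ)) h1 hδ (2 * γ)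
  have e : W (fun p => X p ^ 2) δ 0 + 4 * W X δ γ + 2 * W (fun _ => 1) δ 0 +
      2 * W (fun _ => 1) δ (2 * γ) = ∑' p : Nat.Primes,
        (X p ^ 2 * Real.cos (0 * Real.log ((p : ℕ) : ℝ)) * w1 δ p +
          4 * (X p * Real.cos (γ * Real.log ((p : ℕ) : ℝ)) * w1 δ p) +
          2 * (1 * Real.cos (0 * Real.log ((p : ℕ) : ℝ)) * w1 δ p) +
          2 * (1 * Real.cos (2 * γ * Real.log ((p : ℕ) : ℝ)) * w1 δ p)) := by
    rw [((s1.add (s2.mul_left 4)).add (s3.mul_left 2)).tsum_add (s4.mul_left 2),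
      (s1.add (s2.mul_left 4)).tsum_add (s3.mul_left 2), s1.tsum_add (s2.mul_left 4),
      tsum_mul_left, tsum_mul_left, tsum_mul_left]
    rfl
  rw [e]
  refine tsum_nonneg fun p => ?_
  have hw := w1_nonneg δ p
  set θ := γ * Real.log ((p : ℕ) : ℝ) with hθ
  have e2 : Real.cos (2 * γ * Real.log ((p : ℕ) : ℝ)) = 2 * Real.cos θ ^ 2 - 1 := by
    rw [← Real.cos_two_mul, hθ]
    congr 1
    ring
  rw [e2, zero_mul, Real.cos_zero]
  have e3 : X p ^ 2 * 1 * w1 δ p + 4 * (X p * Real.cos θ * w1 δ p) + 2 * (1 * 1 * w1 δ p) +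
      2 * (1 * (2 * Real.cos θ ^ 2 - 1) * w1 δ p) = (X p + 2 * Real.cos θ) ^ 2 * w1 δ p := by ring
  rw [e3]
  positivity

/-- the positivity of `∑ (X p + 1)²` -/
lemma positivity_W0 {X : ℕ → ℝ} (hX : ∀ p : ℕ, p.Prime → |X p| ≤ 2) {δ : ℝ} (hδ : 0 < δ) :
    0 ≤ W (fun p => X p ^ 2) δ 0 + 2 * W X δ 0 + W (fun _ => 1) δ 0 := by
  have hX2 : ∀ p : ℕ, p.Prime → |X p ^ 2| ≤ 4 := fun p hp => by
    rw [abs_pow]
    have := hX p hp
    have h0 := abs_nonneg (X p)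
    nlinarith
  have h1 : ∀ p : ℕ, p.Prime → |(fun _ => (1 : ℝ)) p| ≤ 1 := fun p _ => by simp
  have s1 := summable_term hX2 hδ 0
  have s2 := summable_term hX hδ 0
  have s3 := summable_term (X := fun _ => (1 : ℝ)) h1 hδ 0
  have e : W (fun p => X p ^ 2) δ 0 + 2 * W X δ 0 + W (fun _ => 1) δ 0 = ∑' p : Nat.Primes,
        (X p ^ 2 * Real.cos (0 * Real.log ((p : ℕ) : ℝ)) * w1 δ p +
          2 * (X p * Real.cos (0 * Real.log ((p : ℕ) : ℝ)) * w1 δ p) +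
          (1 * Real.cos (0 * Real.log ((p : ℕ) : ℝ)) * w1 δ p)) := by
    rw [(s1.add (s2.mul_left 2)).tsum_add s3, s1.tsum_add (s2.mul_left 2), tsum_mul_left]
    rfl
  rw [e]
  refine tsum_nonneg fun p => ?_
  have hw := w1_nonneg δ p
  rw [zero_mul, Real.cos_zero]
  have e3 : X p ^ 2 * 1 * w1 δ p + 2 * (X p * 1 * w1 δ p) + 1 * 1 * w1 δ p =
      (X p + 1) ^ 2 * w1 δ p := by ring
  rw [e3]
  positivity

/-! ### The local formula -/

/-- `log (|μ| + 3)` -/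
noncomputable def el (μ : ℝ) : ℝ := Real.log (|μ| + 3)

lemma one_le_el (μ : ℝ) : 1 ≤ el μ := by
  unfold el
  have h := abs_nonneg μ
  rw [Real.le_log_iff_exp_le (by linarith)]
  have := Real.exp_one_lt_d9
  linarith

lemma el_add {μ x c : ℝ} (hx : 0 < |x| + c) (h : |x| + c ≤ (|μ| + 3) ^ 2) :
    Real.log (|x| + c) ≤ 2 * el μ := by
  unfold el
  have h0 := abs_nonneg μ
  calc Real.log (|x| + c) ≤ Real.log ((|μ| + 3) ^ 2) := Real.log_le_log hx h
    _ = 2 * Real.log (|μ| + 3) := by rw [Real.log_pow]; norm_num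

/-- `W(X; δ, μ) + m δ / (δ² + μ²)` -/
noncomputable def Wm (X : ℕ → ℝ) (m δ μ : ℝ) : ℝ := W X δ μ + m * (δ / (δ ^ 2 + μ ^ 2))

/-- the properties of `L(f, s)`, divided by `(s - 3/2)^m` -/
structure LD (X : ℕ → ℝ) (m : ℝ) (L : ℂ → ℂ) (C : ℝ) : Prop where
  pos : 0 < C
  m0 : 0 ≤ m
  m1 : m ≤ 1
  diff : Differentiable ℂ L
  nz : ∀ s : ℂ, 3 / 2 < s.re → L s ≠ 0
  low : ∀ s : ℂ, s.re = 5 / 2 → Real.exp (-(C * Real.log (|s.im| + 3))) ≤ ‖L s‖
  up : ∀ s : ℂ, 0 ≤ s.re → s.re ≤ 5 → ‖L s‖ ≤ Real.exp (C * Real.log (|s.im| + 3))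
  ld : ∀ δ μ : ℝ, 0 < δ → δ ≤ 1 →
    |(logDeriv L ((3 / 2 + δ : ℝ) + μ * Complex.I)).re + Wm X m δ μ| ≤ C

variable {X : ℕ → ℝ} {m : ℝ} {L : ℂ → ℂ} {C : ℝ}

lemma pt_re (x μ : ℝ) : ((x : ℂ) + μ * Complex.I).re = x := by simp
lemma pt_im (x μ : ℝ) : ((x : ℂ) + μ * Complex.I).im = μ := by simp

lemma LD.zero_re (h : LD X m L C) {ρ : ℂ} (hρ : L ρ = 0) : ρ.re ≤ 3 / 2 := by
  by_contra h1
  push Not at h1
  exact h.nz ρ h1 hρ

/-- `Re 1/(s - ρ)` -/
lemma inv_re (x μ : ℝ) (ρ : ℂ) : ((((x : ℝ) : ℂ) + μ * Complex.I - ρ)⁻¹).re =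
    (x - ρ.re) / ((x - ρ.re) ^ 2 + (μ - ρ.im) ^ 2) := by
  rw [Complex.inv_re, Complex.normSq_apply]
  have e1 : (((x : ℝ) : ℂ) + μ * Complex.I - ρ).re = x - ρ.re := by simp
  have e2 : (((x : ℝ) : ℂ) + μ * Complex.I - ρ).im = μ - ρ.im := by simp
  rw [e1, e2]
  congr 1
  ring

lemma list_sum_re (Z : List ℂ) (g : ℂ → ℂ) : ((Z.map g).sum).re = (Z.map fun ρ => (g ρ).re).sum := by
  induction Z with
  | nil => simp
  | cons a Z ih => simp [ih]

lemma LD.loc (h : LD X m L C) (μ : ℝ) : ∃ Z : List ℂ,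
    (∀ ρ ∈ Z, L ρ = 0 ∧ ρ ∈ closedBall ((5 / 2 : ℂ) + μ * Complex.I) (5 / 4)) ∧
    (∀ ρ ∈ closedBall ((5 / 2 : ℂ) + μ * Complex.I) (5 / 4), L ρ = 0 → ρ ∈ Z) ∧
    ∀ δ : ℝ, 0 < δ → δ ≤ 1 →
      |Wm X m δ μ + (Z.map fun ρ => ((((3 / 2 + δ : ℝ) : ℂ) + μ * Complex.I - ρ)⁻¹).re).sum| ≤
        (160 * (3 * C + 1) + C) * el μ := by
  set c : ℂ := (5 / 2 : ℂ) + μ * Complex.I with hc
  have hcre : c.re = 5 / 2 := by rw [hc]; simp
  have hcim : c.im = μ := by rw [hc]; simp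
  have hlow := h.low c hcre
  rw [hcim] at hlow
  change Real.exp (-(C * el μ)) ≤ ‖L c‖ at hlow
  have hcne : L c ≠ 0 := h.nz c (by rw [hcre]; norm_num)
  set M := Real.exp (C * (2 * el μ)) with hM
  have hC := h.pos
  have hup : ∀ z ∈ closedBall c (5 / 2), ‖L z‖ ≤ M := by
    intro z hz
    rw [mem_closedBall, dist_eq_norm] at hz
    have h1 := (Complex.abs_re_le_norm (z - c)).trans hz
    have h2 := (Complex.abs_im_le_norm (z - c)).trans hz
    rw [Complex.sub_re, hcre, abs_le] at h1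
    rw [Complex.sub_im, hcim] at h2
    refine (h.up z (by linarith [h1.1]) (by linarith [h1.2])).trans ?_
    refine Real.exp_le_exp.2 (mul_le_mul_of_nonneg_left ?_ hC.le)
    have h3 := abs_nonneg μ
    have h4 : |z.im| ≤ |μ| + 5 / 2 := by
      have := abs_sub_abs_le_abs_sub z.im μ
      linarith
    have h5 := abs_nonneg z.im
    refine el_add (by linarith) ?_
    nlinarith
  obtain ⟨Z, hZ1, hZ2, hZ3, hZ4⟩ := Pool.Agent.H437R2.landau L h.diff c (r := 1) (R1 := 5 / 4)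
    (R2 := 5 / 2) (M := M) (by norm_num) (by norm_num) (by norm_num) hcne hup
  refine ⟨Z, hZ1, hZ2, ?_⟩
  intro δ h0 h1
  set s : ℂ := ((3 / 2 + δ : ℝ) : ℂ) + μ * Complex.I with hs
  have hsre : s.re = 3 / 2 + δ := pt_re _ _
  have hsim : s.im = μ := pt_im _ _
  have hsz : s ∈ closedBall c 1 := by
    rw [mem_closedBall, dist_eq_norm]
    have : s - c = ((δ - 1 : ℝ) : ℂ) := by
      rw [hs, hc]
      push_cast
      ring
    rw [this, Complex.norm_real, Real.norm_eq_abs, abs_le]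
    constructor <;> linarith
  have hsne : L s ≠ 0 := h.nz s (by rw [hsre]; linarith)
  have h2 := hZ4 s hsz hsne
  have e0 : Real.log ((5 / 4 : ℝ) / (5 / 2 - 5 / 4)) = 0 := by
    norm_num
  rw [e0, abs_zero, mul_zero, add_zero] at h2
  have h3 := (Complex.abs_re_le_norm _).trans h2
  rw [Complex.sub_re, list_sum_re] at h3
  have h4 := h.ld δ μ h0 h1
  have e1 : (logDeriv L s).re = (deriv L s / L s).re := by rw [logDeriv_apply]
  rw [← hs, e1] at h4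
  have hel := one_le_el μ
  have h5 : Real.log (M / ‖L c‖) ≤ C * (2 * el μ) + C * el μ := by
    have hpos : 0 < ‖L c‖ := norm_pos_iff.2 hcne
    rw [Real.log_div (Real.exp_pos _).ne' hpos.ne', Real.log_exp]
    have : -(C * el μ) ≤ Real.log ‖L c‖ := by
      rw [Real.le_log_iff_exp_le hpos]
      exact hlow
    linarith
  have h6 : 8 * (5 / 4) / (5 / 4 - 1) ^ 2 * (Real.log (M / ‖L c‖) + 1) ≤
      160 * (3 * C + 1) * el μ := by
    have h7 : Real.log (M / ‖L c‖) + 1 ≤ (3 * C + 1) * el μ := by nlinarith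
    have e2 : (8 * (5 / 4) / (5 / 4 - 1) ^ 2 : ℝ) = 160 := by norm_num
    rw [e2]
    linarith
  have h8 := h3.trans h6
  rw [abs_le] at h4 h8 ⊢
  have hCl : C ≤ C * el μ := le_mul_of_one_le_right hC.le hel
  constructor
  · linarith [h4.1, h8.2]
  · linarith [h4.2, h8.1]

/-- the constant of the local formula -/
noncomputable def K1 (C : ℝ) : ℝ := 160 * (3 * C + 1) + C

lemma K1_pos (hC : 0 < C) : 0 < K1 C := by unfold K1; positivity

lemma LD.term_nonneg (h : LD X m L C) {δ : ℝ} (h0 : 0 < δ) (μ : ℝ) {ρ : ℂ} (hρ : L ρ = 0) :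
    0 ≤ ((((3 / 2 + δ : ℝ) : ℂ) + μ * Complex.I - ρ)⁻¹).re := by
  rw [inv_re]
  have h1 := h.zero_re hρ
  refine div_nonneg (by linarith) (by positivity)

/-- one zero -/
lemma LD.one_zero (h : LD X m L C) {δ : ℝ} (h0 : 0 < δ) (h1 : δ ≤ 1) {ρ : ℂ} (hρ : L ρ = 0)
    (hη : 5 / 4 ≤ ρ.re) : Wm X m δ ρ.im ≤ -(1 / (δ + (3 / 2 - ρ.re))) + K1 C * el ρ.im := by
  obtain ⟨Z, hZ1, hZ2, hZ3⟩ := h.loc ρ.im
  have h2 := h.zero_re hρ
  have hmem : ρ ∈ Z := by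
    refine hZ2 ρ ?_ hρ
    rw [mem_closedBall, dist_eq_norm]
    have : ρ - ((5 / 2 : ℂ) + ρ.im * Complex.I) = ((ρ.re - 5 / 2 : ℝ) : ℂ) := by
      apply Complex.ext <;> simp
    rw [this, Complex.norm_real, Real.norm_eq_abs, abs_le]
    constructor <;> linarith
  have h3 := hZ3 δ h0 h1
  set g : ℂ → ℝ := fun ρ' => ((((3 / 2 + δ : ℝ) : ℂ) + ρ.im * Complex.I - ρ')⁻¹).re with hg
  have h4 : g ρ ≤ (Z.map g).sum :=
    List.single_le_sum (by
      intro x hx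
      obtain ⟨ρ', hρ', rfl⟩ := List.mem_map.1 hx
      exact h.term_nonneg h0 _ (hZ1 ρ' hρ').1) _ (List.mem_map.2 ⟨ρ, hmem, rfl⟩)
  have h5 : g ρ = 1 / (δ + (3 / 2 - ρ.re)) := by
    simp only [hg]
    rw [inv_re]
    have h6 : 0 < δ + (3 / 2 - ρ.re) := by linarith
    have e1 : 3 / 2 + δ - ρ.re = δ + (3 / 2 - ρ.re) := by ring
    rw [e1, sub_self]
    generalize δ + (3 / 2 - ρ.re) = x at h6
    have e2 : x ^ 2 + 0 ^ 2 = x * x := by ring
    rw [e2, div_mul_cancel_left₀ h6.ne', one_div]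
  rw [abs_le] at h3
  unfold K1
  rw [← h5]
  linarith [h3.2]

/-! ### The zero-free region -/

/-- the hypotheses on the sums over primes -/
structure PD (X : ℕ → ℝ) (C₂ δ₀ : ℝ) : Prop where
  pos : 0 < C₂
  pos0 : 0 < δ₀
  le2 : ∀ p : ℕ, p.Prime → |X p| ≤ 2
  zeta : ∀ δ μ : ℝ, 0 < δ → δ ≤ 1 →
    W (fun _ => 1) δ μ ≤ δ / (δ ^ 2 + μ ^ 2) + C₂ * Real.log (|μ| + 3)
  rs : ∀ δ : ℝ, 0 < δ → δ < δ₀ → W (fun p => X p ^ 2) δ 0 ≤ (1 + 1 / 2) / δ

variable {C₂ δ₀ : ℝ}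

lemma PD.one (hp : PD X C₂ δ₀) {δ : ℝ} (h0 : 0 < δ) (h1 : δ ≤ 1) (μ : ℝ) :
    W (fun _ => 1) δ 0 ≤ 1 / δ + C₂ * el μ := by
  have h2 := hp.zeta δ 0 h0 h1
  have e1 : δ / (δ ^ 2 + 0 ^ 2) = 1 / δ := by
    have : δ ^ 2 + 0 ^ 2 = δ * δ := by ring
    rw [this, div_mul_cancel_left₀ h0.ne', one_div]
  rw [e1] at h2
  have h3 : Real.log (|(0 : ℝ)| + 3) ≤ el μ := by
    unfold el
    have := abs_nonneg μ
    rw [abs_zero]
    exact Real.log_le_log (by norm_num) (by linarith)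
  have h4 := mul_le_mul_of_nonneg_left h3 hp.pos.le
  exact h2.trans (add_le_add le_rfl h4)

/-- the basic inequality at a zero -/
lemma basic (h : LD X m L C) (hp : PD X C₂ δ₀) {δ : ℝ} (h0 : 0 < δ) (h1 : δ ≤ 1) (h2 : δ < δ₀) {ρ : ℂ}
    (hρ : L ρ = 0) (hη : 5 / 4 ≤ ρ.re) :
    4 / (δ + (3 / 2 - ρ.re)) ≤ (7 / 2) / δ + 2 * (δ / (δ ^ 2 + (2 * ρ.im) ^ 2)) +
      (4 * K1 C + 6 * C₂) * el ρ.im := by
  have a1 := positivity_W hp.le2 h0 ρ.im
  have a2 := hp.rs δ h0 h2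
  have a3 := h.one_zero h0 h1 hρ hη
  have a3' : 0 ≤ m * (δ / (δ ^ 2 + ρ.im ^ 2)) := mul_nonneg h.m0 (by positivity)
  unfold Wm at a3
  have a4 := hp.one h0 h1 ρ.im
  have a5 := hp.zeta δ (2 * ρ.im) h0 h1
  have hel := one_le_el ρ.im
  have a6 : Real.log (|2 * ρ.im| + 3) ≤ 2 * el ρ.im := by
    have h3 := abs_nonneg ρ.im
    have h4 := abs_nonneg (2 * ρ.im)
    refine el_add (by linarith) ?_
    rw [abs_mul, abs_two]
    nlinarith
  have a7 := mul_le_mul_of_nonneg_left a6 hp.pos.le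
  have e1 : 4 / (δ + (3 / 2 - ρ.re)) = 4 * (1 / (δ + (3 / 2 - ρ.re))) := by ring
  have e2 : (7 / 2) / δ = (1 + 1 / 2) / δ + 2 * (1 / δ) := by ring
  rw [e1, e2]
  nlinarith

/-- no zeros on the line, except perhaps at `3/2` -/
lemma line_ne (h : LD X m L C) (hp : PD X C₂ δ₀) {γ : ℝ} (hγ : γ ≠ 0) :
    L ((3 / 2 : ℂ) + γ * Complex.I) ≠ 0 := by
  intro hz
  set ρ : ℂ := (3 / 2 : ℂ) + γ * Complex.I with hρ
  have hre : ρ.re = 3 / 2 := by rw [hρ]; simp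
  have him : ρ.im = γ := by rw [hρ]; simp
  set A := (4 * K1 C + 6 * C₂) * el γ with hA
  have hel := one_le_el γ
  have hA0 : 0 < A := by
    have := K1_pos h.pos
    have := hp.pos
    positivity
  have hγ2 : 0 < γ ^ 2 := by positivity
  obtain ⟨δ, h0, h1, h2, h3, h4⟩ : ∃ δ : ℝ, 0 < δ ∧ δ ≤ 1 / 4 ∧ δ < δ₀ ∧ δ ≤ γ ^ 2 ∧ A * δ ≤ 1 / 8 := by
    refine ⟨min (min (1 / 4) (δ₀ / 2)) (min (γ ^ 2) (1 / (8 * A))), ?_, ?_, ?_, ?_, ?_⟩
    · have := hp.pos0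
      positivity
    · exact (min_le_left _ _).trans (min_le_left _ _)
    · refine lt_of_le_of_lt ((min_le_left _ _).trans (min_le_right _ _)) ?_
      have := hp.pos0
      linarith
    · exact (min_le_right _ _).trans (min_le_left _ _)
    · calc A * min (min (1 / 4) (δ₀ / 2)) (min (γ ^ 2) (1 / (8 * A)))
          ≤ A * (1 / (8 * A)) := by
            apply mul_le_mul_of_nonneg_left ((min_le_right _ _).trans (min_le_right _ _)) hA0.le
        _ = 1 / 8 := by field_simp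
  have h5 := basic h hp h0 (by linarith) h2 hz (by rw [hre]; norm_num)
  rw [hre, him, sub_self, add_zero, ← hA] at h5
  have h6 : δ / (δ ^ 2 + (2 * γ) ^ 2) ≤ 1 / 4 := by
    rw [div_le_iff₀ (by positivity)]
    nlinarith
  have h7 : 4 / δ - (7 / 2) / δ ≤ 1 / 2 + A := by linarith
  have e1 : 4 / δ - (7 / 2) / δ = (1 / 2) / δ := by ring
  rw [e1, div_le_iff₀ h0] at h7
  nlinarith

/-- no second zero at `3/2` -/
lemma real_ne (h : LD X 1 L C) (hp : PD X C₂ δ₀) : L (3 / 2) ≠ 0 := by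
  intro hz
  have hK := K1_pos h.pos
  have hC2 := hp.pos
  have hel := one_le_el 0
  have hre : (3 / 2 : ℂ).re = 3 / 2 := by norm_num
  have him : (3 / 2 : ℂ).im = 0 := by norm_num
  set D := 2 * K1 C * el 0 + C₂ * el 0 with hD
  have hD0 : 0 < D := by positivity
  obtain ⟨δ, h0, h1, h2, h3⟩ : ∃ δ : ℝ, 0 < δ ∧ δ ≤ 1 ∧ δ < δ₀ ∧ D * δ ≤ 1 := by
    refine ⟨min (min 1 (δ₀ / 2)) (1 / D), ?_, ?_, ?_, ?_⟩
    · have := hp.pos0
      positivity
    · exact (min_le_left _ _).trans (min_le_left _ _)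
    · refine lt_of_le_of_lt ((min_le_left _ _).trans (min_le_right _ _)) ?_
      have := hp.pos0
      linarith
    · calc D * min (min 1 (δ₀ / 2)) (1 / D) ≤ D * (1 / D) := by
            apply mul_le_mul_of_nonneg_left (min_le_right _ _) hD0.le
        _ = 1 := by field_simp
  have h4 := h.one_zero h0 h1 hz (by rw [hre]; norm_num)
  rw [hre, him, sub_self, add_zero] at h4
  unfold Wm at h4
  have e1 : δ / (δ ^ 2 + 0 ^ 2) = 1 / δ := by
    have : δ ^ 2 + 0 ^ 2 = δ * δ := by ring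
    rw [this, div_mul_cancel_left₀ h0.ne', one_div]
  rw [e1] at h4
  have h5 := positivity_W0 hp.le2 h0
  have h6 := hp.rs δ h0 h2
  have h7 := hp.one h0 h1 0
  have h8 : 0 ≤ -(3 / 2) / δ + D := by
    have e2 : -(3 / 2) / δ = (1 + 1 / 2) / δ - 4 * (1 / δ) + 1 / δ := by ring
    rw [e2, hD]
    nlinarith
  have h9 : 0 ≤ (-(3 / 2) / δ + D) * δ := mul_nonneg h8 h0.le
  have e3 : (-(3 / 2) / δ + D) * δ = -(3 / 2) + D * δ := by field_simp
  rw [e3] at h9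
  linarith

/-- the zero-free region -/
lemma region (h : LD X m L C) (hp : PD X C₂ δ₀) (h3 : L (3 / 2) ≠ 0) :
    ∃ c : ℝ, 0 < c ∧ c ≤ 1 / 4 ∧ ∀ ρ : ℂ, L ρ = 0 → c / el ρ.im ≤ 3 / 2 - ρ.re := by
  have hline : ∀ γ : ℝ, L ((3 / 2 : ℂ) + γ * Complex.I) ≠ 0 := by
    intro γ
    by_cases hγ : γ = 0
    · subst hγ
      simpa using h3
    · exact line_ne h hp hγ
  -- bounded height
  have hcomp : ∃ ε : ℝ, 0 < ε ∧ ∀ ρ : ℂ, L ρ = 0 → |ρ.im| ≤ 1 → ε ≤ 3 / 2 - ρ.re := by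
    have hK : IsCompact ((fun γ : ℝ => (3 / 2 : ℂ) + γ * Complex.I) '' Icc (-1) 1) :=
      isCompact_Icc.image (by fun_prop)
    have hU : IsOpen {s : ℂ | L s ≠ 0} := isOpen_ne_fun h.diff.continuous continuous_const
    have hKU : (fun γ : ℝ => (3 / 2 : ℂ) + γ * Complex.I) '' Icc (-1) 1 ⊆ {s : ℂ | L s ≠ 0} := by
      rintro _ ⟨γ, _, rfl⟩
      exact hline γ
    obtain ⟨ε, hε, hs⟩ := hK.exists_thickening_subset_open hU hKU
    refine ⟨ε, hε, fun ρ hρ hi => ?_⟩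
    by_contra hlt
    push Not at hlt
    have hre := h.zero_re hρ
    have hmem : ρ ∈ thickening ε ((fun γ : ℝ => (3 / 2 : ℂ) + γ * Complex.I) '' Icc (-1) 1) := by
      rw [mem_thickening_iff]
      refine ⟨_, ⟨ρ.im, abs_le.1 hi, rfl⟩, ?_⟩
      rw [dist_eq_norm]
      have : ρ - ((3 / 2 : ℂ) + ρ.im * Complex.I) = ((ρ.re - 3 / 2 : ℝ) : ℂ) := by
        apply Complex.ext <;> simp
      rw [this, Complex.norm_real, Real.norm_eq_abs, abs_lt]
      constructor <;> linarith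
    exact hs hmem hρ
  obtain ⟨ε, hε, hcomp⟩ := hcomp
  set A := 4 * K1 C + 6 * C₂ + 1 with hA
  have hA0 : 0 < A := by
    have := K1_pos h.pos
    have := hp.pos
    positivity
  obtain ⟨κ, hκ, hκ1, hκ2, hκ3⟩ : ∃ κ : ℝ, 0 < κ ∧ κ ≤ 1 ∧ κ < δ₀ ∧ A * κ ≤ 1 / 4 := by
    refine ⟨min (min 1 (δ₀ / 2)) (1 / (4 * A)), ?_, ?_, ?_, ?_⟩
    · have := hp.pos0
      positivity
    · exact (min_le_left _ _).trans (min_le_left _ _)
    · refine lt_of_le_of_lt ((min_le_left _ _).trans (min_le_right _ _)) ?_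
      have := hp.pos0
      linarith
    · calc A * min (min 1 (δ₀ / 2)) (1 / (4 * A)) ≤ A * (1 / (4 * A)) := by
            apply mul_le_mul_of_nonneg_left (min_le_right _ _) hA0.le
        _ = 1 / 4 := by field_simp
  refine ⟨min (min ε (κ / 15)) (1 / 4), by positivity, min_le_right _ _, fun ρ hρ => ?_⟩
  set c := min (min ε (κ / 15)) (1 / 4) with hc
  have hc0 : 0 < c := by rw [hc]; positivity
  have hel := one_le_el ρ.im
  have hel0 : 0 < el ρ.im := by linarith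
  have hre := h.zero_re hρ
  have hdiv : c / el ρ.im ≤ c := div_le_self hc0.le hel
  by_cases hi : |ρ.im| ≤ 1
  · have h4 := hcomp ρ hρ hi
    have h5 : c ≤ ε := (min_le_left _ _).trans (min_le_left _ _)
    linarith
  push Not at hi
  by_cases hη : 5 / 4 ≤ ρ.re
  · set δ := κ / el ρ.im with hδ
    have h0 : 0 < δ := by positivity
    have hδκ : δ ≤ κ := div_le_self hκ.le hel
    have h5 := basic h hp h0 (by linarith) (by linarith) hρ hη
    set η := 3 / 2 - ρ.re with hηd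
    have hη0 : 0 ≤ η := by linarith
    have h6 : δ / (δ ^ 2 + (2 * ρ.im) ^ 2) ≤ 1 / 4 := by
      have h7 : 1 ≤ ρ.im ^ 2 := by
        rw [← sq_abs]
        nlinarith
      rw [div_le_iff₀ (by positivity)]
      nlinarith
    have h8 : 4 / (δ + η) ≤ (7 / 2) / δ + A * el ρ.im := by
      rw [hA]
      nlinarith
    have h9 : A * el ρ.im ≤ (1 / 4) / δ := by
      rw [le_div_iff₀ h0, hδ]
      calc A * el ρ.im * (κ / el ρ.im) = A * κ := by field_simp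
        _ ≤ 1 / 4 := hκ3
    have h10 : 4 / (δ + η) ≤ (15 / 4) / δ := by
      have e1 : (15 / 4) / δ = (7 / 2) / δ + (1 / 4) / δ := by ring
      rw [e1]
      linarith
    rw [div_le_div_iff₀ (by positivity) h0] at h10
    have h11 : δ / 15 ≤ η := by linarith
    have h12 : c / el ρ.im ≤ δ / 15 := by
      rw [hδ, div_div, mul_comm (el ρ.im) 15, ← div_div]
      exact div_le_div_of_nonneg_right ((min_le_left _ _).trans (min_le_right _ _)) hel0.le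
    linarith
  · push Not at hη
    have h5 : c ≤ 1 / 4 := min_le_right _ _
    linarith

/-! ### The bound -/

lemma term_le {x x₁ u A : ℝ} (hx : 0 < x) (h1 : x ≤ x₁) (h2 : x₁ ≤ A * x) (hA : 1 ≤ A) :
    x / (x ^ 2 + u ^ 2) ≤ A ^ 2 * (x₁ / (x₁ ^ 2 + u ^ 2)) := by
  have hx1 : 0 < x₁ := by linarith
  rw [mul_div_assoc', div_le_div_iff₀ (by positivity) (by positivity)]
  have h3 : x₁ ^ 2 + u ^ 2 ≤ A ^ 2 * (x ^ 2 + u ^ 2) := by
    have h4 : x₁ ^ 2 ≤ (A * x) ^ 2 := by gcongr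
    have h5 : u ^ 2 ≤ A ^ 2 * u ^ 2 := by
      have : 1 ≤ A ^ 2 := by nlinarith
      nlinarith [sq_nonneg u]
    nlinarith
  calc x * (x₁ ^ 2 + u ^ 2) ≤ x₁ * (A ^ 2 * (x ^ 2 + u ^ 2)) := by gcongr
    _ = A ^ 2 * x₁ * (x ^ 2 + u ^ 2) := by ring

lemma list_sum_le {Z : List ℂ} {g g' : ℂ → ℝ} {A : ℝ} (h : ∀ ρ ∈ Z, g ρ ≤ A * g' ρ) :
    (Z.map g).sum ≤ A * (Z.map g').sum := by
  induction Z with
  | nil => simp
  | cons a Z ih =>
    rw [List.map_cons, List.sum_cons, List.map_cons, List.sum_cons, mul_add]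
    exact add_le_add (h a List.mem_cons_self) (ih fun ρ hρ => h ρ (List.mem_cons_of_mem _ hρ))

theorem main_bound (h : LD X m L C) (hp : PD X C₂ δ₀) (h3 : L (3 / 2) ≠ 0) :
    ∃ K : ℝ, 0 < K ∧ ∀ δ μ : ℝ, 0 < δ → δ ≤ 1 → -(K * Real.log (|μ| + 3)) ≤ Wm X m δ μ := by
  obtain ⟨c, hc, hc1, hreg⟩ := region h hp h3
  have hK1 := K1_pos h.pos
  have hC2 := hp.pos
  set A := 1 + 2 / c with hA
  have hA1 : 1 ≤ A := by
    have : 0 < 2 / c := by positivity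
    linarith
  refine ⟨A ^ 2 * (3 + 2 * C₂ + K1 C) + K1 C + (3 + 2 * C₂), by positivity, ?_⟩
  intro δ μ h0 h1
  change -((A ^ 2 * (3 + 2 * C₂ + K1 C) + K1 C + (3 + 2 * C₂)) * el μ) ≤ Wm X m δ μ
  have hel := one_le_el μ
  have hel0 : 0 < el μ := by linarith
  -- the trivial bound
  have triv : ∀ δ' : ℝ, 1 / el μ ≤ δ' → δ' ≤ 1 → |Wm X m δ' μ| ≤ (3 + 2 * C₂) * el μ := by
    intro δ' h4 h5
    have h6 : 0 < δ' := lt_of_lt_of_le (by positivity) h4
    have h7 := abs_W_le hp.le2 h6 μ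
    have h8 := hp.one h6 h5 μ
    have h9 : 1 / δ' ≤ el μ := by
      rw [div_le_iff₀ h6]
      rw [div_le_iff₀ hel0] at h4
      linarith
    have h10 : 0 ≤ δ' / (δ' ^ 2 + μ ^ 2) := by positivity
    have h11 : δ' / (δ' ^ 2 + μ ^ 2) ≤ 1 / δ' := by
      rw [div_le_div_iff₀ (by positivity) h6]
      nlinarith [sq_nonneg μ]
    have h12 : 0 ≤ m * (δ' / (δ' ^ 2 + μ ^ 2)) := mul_nonneg h.m0 h10
    have h13 : m * (δ' / (δ' ^ 2 + μ ^ 2)) ≤ 1 * (δ' / (δ' ^ 2 + μ ^ 2)) :=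
      mul_le_mul_of_nonneg_right h.m1 h10
    unfold Wm
    rw [abs_le] at h7 ⊢
    constructor <;> nlinarith [h7.1, h7.2]
  by_cases hδ : 1 / el μ ≤ δ
  · have h4 := triv δ hδ h1
    rw [abs_le] at h4
    have h5 : 0 ≤ (A ^ 2 * (3 + 2 * C₂ + K1 C) + K1 C) * el μ := by positivity
    nlinarith [h4.1]
  push Not at hδ
  set δ₁ := 1 / el μ with hδ₁
  have hδ₁0 : 0 < δ₁ := by positivity
  have hδ₁1 : δ₁ ≤ 1 := by
    rw [hδ₁, div_le_one hel0]
    exact hel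
  obtain ⟨Z, hZ1, hZ2, hZ3⟩ := h.loc μ
  have h4 := hZ3 δ h0 h1
  have h5 := hZ3 δ₁ hδ₁0 hδ₁1
  have h6 := triv δ₁ le_rfl hδ₁1
  have h7 : (Z.map fun ρ => ((((3 / 2 + δ : ℝ) : ℂ) + μ * Complex.I - ρ)⁻¹).re).sum ≤
      A ^ 2 * (Z.map fun ρ => ((((3 / 2 + δ₁ : ℝ) : ℂ) + μ * Complex.I - ρ)⁻¹).re).sum := by
    refine list_sum_le fun ρ hρ => ?_
    obtain ⟨hρ0, hρb⟩ := hZ1 ρ hρ
    rw [inv_re, inv_re]
    have h8 := hreg ρ hρ0
    have h9 := h.zero_re hρ0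
    have h10 : |ρ.im - μ| ≤ 5 / 4 := by
      rw [mem_closedBall, dist_eq_norm] at hρb
      have h11 := (Complex.abs_im_le_norm _).trans hρb
      have e1 : (ρ - ((5 / 2 : ℂ) + μ * Complex.I)).im = ρ.im - μ := by simp
      rwa [e1] at h11
    have h11 : el ρ.im ≤ 2 * el μ := by
      have h12 : |ρ.im| ≤ |μ| + 5 / 4 := by
        have := abs_sub_abs_le_abs_sub ρ.im μ
        linarith
      have h13 := abs_nonneg ρ.im
      have h14 := abs_nonneg μ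
      exact el_add (by linarith) (by nlinarith)
    have helρ : 0 < el ρ.im := lt_of_lt_of_le one_pos (one_le_el _)
    have h12 : c / (2 * el μ) ≤ 3 / 2 - ρ.re := by
      refine le_trans ?_ h8
      exact div_le_div_of_nonneg_left hc.le helρ h11
    have e1 : 3 / 2 + δ - ρ.re = δ + (3 / 2 - ρ.re) := by ring
    have e2 : 3 / 2 + δ₁ - ρ.re = δ₁ + (3 / 2 - ρ.re) := by ring
    rw [e1, e2]
    set η := 3 / 2 - ρ.re with hη
    have hη0 : 0 < η := lt_of_lt_of_le (by positivity) h12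
    refine term_le (by linarith) (by linarith) ?_ hA1
    have h13 : δ₁ ≤ (2 / c) * η := by
      calc δ₁ = (2 / c) * (c / (2 * el μ)) := by rw [hδ₁]; field_simp
        _ ≤ (2 / c) * η := by gcongr
    have h14 : (2 / c) * η ≤ (2 / c) * (δ + η) := by
      have : 0 < 2 / c := by positivity
      nlinarith
    rw [hA]
    nlinarith
  set S := (Z.map fun ρ => ((((3 / 2 + δ : ℝ) : ℂ) + μ * Complex.I - ρ)⁻¹).re).sum with hS
  set S₁ := (Z.map fun ρ => ((((3 / 2 + δ₁ : ℝ) : ℂ) + μ * Complex.I - ρ)⁻¹).re).sum with hS₁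
  rw [abs_le] at h4 h5 h6
  have e3 : (160 * (3 * C + 1) + C) = K1 C := rfl
  rw [e3] at h4 h5
  have h8 : S₁ ≤ (3 + 2 * C₂ + K1 C) * el μ := by nlinarith [h5.2, h6.1]
  have h9 : A ^ 2 * S₁ ≤ A ^ 2 * ((3 + 2 * C₂ + K1 C) * el μ) :=
    mul_le_mul_of_nonneg_left h8 (by positivity)
  have h10 : 0 ≤ (3 + 2 * C₂) * el μ := by positivity
  nlinarith [h4.1]

/-! ### The package -/

section form

variable {N : ℕ}

lemma lam_le {a b : ℤ} {f : CuspForm (Gamma0 N : Subgroup (GL (Fin 2) ℝ)) 2} {w : ℝ}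
    (hf : IsFormOf a b N f w) (p : ℕ) (hp : p.Prime) : |lam f p| ≤ 2 := by
  have hp2 : (2 : ℝ) ≤ (p : ℝ) := by exact_mod_cast hp.two_le
  have hs : 0 < √(p : ℝ) := Real.sqrt_pos.2 (by linarith)
  have hs1 : 1 ≤ √(p : ℝ) := by
    rw [Real.one_le_sqrt]
    linarith
  unfold lam
  rw [abs_div, abs_of_pos hs, div_le_iff₀ hs]
  have h1 : |(coef f p).re| ≤ ‖coef f p‖ := Complex.abs_re_le_norm _
  refine h1.trans ?_
  by_cases hN : p ∣ N
  · rcases hf.bad p hp hN with h | h | h <;> rw [h] <;> simp <;> nlinarith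
  · exact hf.good p hp hN

end form

/-- division by `s - 3/2` -/
lemma LD.quot (h : LD X 0 L C) (hz : L (3 / 2) = 0) : ∃ (G : ℂ → ℂ) (C' : ℝ), LD X 1 G C' := by
  have hC := h.pos
  set G : ℂ → ℂ := dslope L (3 / 2) with hG
  have hGd : Differentiable ℂ G := by
    have h1 := (Complex.differentiableOn_dslope (c := (3 / 2 : ℂ)) (f := L) (s := univ) Filter.univ_mem).2
      h.diff.differentiableOn
    exact differentiableOn_univ.1 h1
  have hLG : ∀ s : ℂ, L s = (s - 3 / 2) * G s := by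
    intro s
    have h1 := sub_smul_dslope L (3 / 2) s
    rw [hz, sub_zero, smul_eq_mul] at h1
    exact h1.symm
  -- the bound on a compact set
  have hK : IsCompact ((fun x : ℝ × ℝ => (x.1 : ℂ) + x.2 * Complex.I) '' (Icc 0 5 ×ˢ Icc (-1) 1)) :=
    (isCompact_Icc.prod isCompact_Icc).image (by fun_prop)
  obtain ⟨B, hB⟩ := hK.exists_bound_of_continuousOn hGd.continuous.continuousOn
  have hB0 : 0 < max B 1 := by positivity
  have hlB : 0 ≤ Real.log (max B 1) := Real.log_nonneg (le_max_right _ _)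
  refine ⟨G, C + 1 + Real.log (max B 1), by linarith, zero_le_one, le_rfl, hGd, ?_, ?_, ?_, ?_⟩
  · intro s hs h1
    exact h.nz s hs (by rw [hLG, h1, mul_zero])
  · intro s hs
    have h1 := h.low s hs
    have hel := one_le_el s.im
    change Real.exp (-(C * el s.im)) ≤ ‖L s‖ at h1
    change Real.exp (-((C + 1 + Real.log (max B 1)) * el s.im)) ≤ ‖G s‖
    rw [hLG s, norm_mul] at h1
    have h2 : ‖s - 3 / 2‖ ≤ Real.exp (el s.im) := by
      unfold el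
      have h0 := abs_nonneg s.im
      rw [Real.exp_log (by linarith)]
      have h3 := Complex.norm_le_abs_re_add_abs_im (s - 3 / 2)
      have e1 : (s - 3 / 2).re = 1 := by
        simp [hs]
        norm_num
      have e2 : (s - 3 / 2).im = s.im := by simp
      rw [e1, e2, abs_one] at h3
      linarith
    have h3 : Real.exp (-(C * el s.im)) ≤ Real.exp (el s.im) * ‖G s‖ :=
      h1.trans (mul_le_mul_of_nonneg_right h2 (norm_nonneg _))
    have h4 : Real.exp (-(C * el s.im)) * Real.exp (-(el s.im)) ≤ ‖G s‖ := by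
      calc Real.exp (-(C * el s.im)) * Real.exp (-(el s.im))
          ≤ (Real.exp (el s.im) * ‖G s‖) * Real.exp (-(el s.im)) :=
            mul_le_mul_of_nonneg_right h3 (Real.exp_pos _).le
        _ = ‖G s‖ * (Real.exp (el s.im) * Real.exp (-(el s.im))) := by ring
        _ = ‖G s‖ := by rw [← Real.exp_add, add_neg_cancel, Real.exp_zero, mul_one]
    refine le_trans ?_ h4
    rw [← Real.exp_add, Real.exp_le_exp]
    nlinarith
  · intro s h1 h2
    have hel := one_le_el s.im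
    change ‖G s‖ ≤ Real.exp ((C + 1 + Real.log (max B 1)) * el s.im)
    by_cases hi : |s.im| ≤ 1
    · have h3 : ‖G s‖ ≤ B := by
        apply hB
        refine ⟨(s.re, s.im), ⟨⟨h1, h2⟩, abs_le.1 hi⟩, ?_⟩
        simp [Complex.re_add_im]
      have h4 : B ≤ Real.exp (Real.log (max B 1)) := by
        rw [Real.exp_log hB0]
        exact le_max_left _ _
      refine (h3.trans h4).trans (Real.exp_le_exp.2 ?_)
      nlinarith
    · push Not at hi
      have h3 := h.up s h1 h2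
      change ‖L s‖ ≤ Real.exp (C * el s.im) at h3
      rw [hLG s, norm_mul] at h3
      have h4 : 1 ≤ ‖s - 3 / 2‖ := by
        have h5 := Complex.abs_im_le_norm (s - 3 / 2)
        have e2 : (s - 3 / 2).im = s.im := by simp
        rw [e2] at h5
        linarith
      have h5 : ‖G s‖ ≤ ‖s - 3 / 2‖ * ‖G s‖ := le_mul_of_one_le_left (norm_nonneg _) h4
      refine (h5.trans h3).trans (Real.exp_le_exp.2 ?_)
      nlinarith
  · intro δ μ h0 h1
    have h2 := h.ld δ μ h0 h1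
    set s : ℂ := ((3 / 2 + δ : ℝ) : ℂ) + μ * Complex.I with hs
    have hsre : s.re = 3 / 2 + δ := pt_re _ _
    have hsne : L s ≠ 0 := h.nz s (by rw [hsre]; linarith)
    have hs1 : s - 3 / 2 ≠ 0 := by
      intro h3
      exact hsne (by rw [hLG, h3, zero_mul])
    have hG1 : G s ≠ 0 := by
      intro h3
      exact hsne (by rw [hLG, h3, mul_zero])
    have e1 : logDeriv L s = (s - 3 / 2)⁻¹ + logDeriv G s := by
      have e2 : L = fun z => (z - 3 / 2) * G z := funext hLG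
      conv_lhs => rw [e2]
      rw [logDeriv_mul (f := fun z : ℂ => z - 3 / 2) (g := G) s hs1 hG1 (by fun_prop)
        hGd.differentiableAt]
      congr 1
      rw [logDeriv_apply]
      simp
    have e3 : ((s - 3 / 2)⁻¹).re = δ / (δ ^ 2 + μ ^ 2) := by
      have h3 := inv_re (3 / 2 + δ) μ (3 / 2)
      rw [hs, h3]
      have e4 : (3 / 2 : ℂ).re = 3 / 2 := by norm_num
      have e5 : (3 / 2 : ℂ).im = 0 := by norm_num
      rw [e4, e5]
      congr 1 <;> ring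
    unfold Wm at h2 ⊢
    rw [e1, Complex.add_re, e3] at h2
    have e6 : (logDeriv G s).re + (W X δ μ + 1 * (δ / (δ ^ 2 + μ ^ 2))) =
        δ / (δ ^ 2 + μ ^ 2) + (logDeriv G s).re + (W X δ μ + 0 * (δ / (δ ^ 2 + μ ^ 2))) := by ring
    rw [e6]
    linarith

/-- **Package LREG2**: the bound for `L(f, s)` near the edge. -/
theorem t_LREG2 : S_ZETA → S_RS → S_LCONT → S_LF2 := by
  intro hZ hR hL a b N _ f w hΔ hf
  obtain ⟨C₂, hC₂, hz⟩ := hZ
  obtain ⟨δ₀, hδ₀, hr⟩ := hR a b N f w hΔ hf (1 / 2) (by norm_num)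
  obtain ⟨L, C, hC, h1, h2, -, h3, h4, h5⟩ := hL a b N f w hΔ hf
  have hLD : LD (lam f) 0 L C := by
    refine ⟨hC, le_rfl, zero_le_one, h1, h2, ?_, h4, ?_⟩
    · intro s hs
      refine le_trans (Real.exp_le_exp.2 ?_) (h3 s (by rw [hs]; norm_num))
      have := one_le_el s.im
      unfold el at this
      nlinarith
    · intro δ μ h0 h6
      have h7 := h5 δ μ h0 h6
      unfold Wm
      rwa [zero_mul, add_zero]
  have hPD : PD (lam f) C₂ δ₀ := ⟨hC₂, hδ₀, fun p hp => lam_le hf p hp, hz, hr⟩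
  by_cases h6 : L (3 / 2) = 0
  · obtain ⟨G, C', hG⟩ := hLD.quot h6
    obtain ⟨K, hK, h7⟩ := main_bound hG hPD (real_ne hG hPD)
    refine ⟨K, hK, fun δ μ h0 h1 => ?_⟩
    have h8 := h7 δ μ h0 h1
    unfold Wm at h8
    linarith
  · obtain ⟨K, hK, h7⟩ := main_bound hLD hPD h6
    refine ⟨K, hK, fun δ μ h0 h1 => ?_⟩
    have h8 := h7 δ μ h0 h1
    unfold Wm at h8
    have h9 : 0 ≤ δ / (δ ^ 2 + μ ^ 2) := by positivity
    linarith

end Pool.Agent.U899.ZF2
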